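import Pool.Agent.CFX.MA

/-!
# Two-point concentration of the conflict-free chromatic number of `G(n,p)` for all `p`

For EVERY sequence `p = p(n)` of edge probabilities (`0 ≤ p ≤ 1` for all large `n`) there are
integers `a(n)` such that the conflict-free chromatic number of `G(n,p)` lies in
`{a(n), a(n) + 1}` with probability tending to `1`. So the range of edge probabilities for which
`χ_CF(G(n,p))` is concentrated on two values is the whole range.

The statement uses three definitions (file `Pool/Agent/CFC/Defs.lean`): `IsCF G c` (the colouring
`c` is conflict-free for closed neighbourhoods), `chiCF G` (the least number of colours), and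
`gnp n p Q` (the probability that `G(n,p)` has the property `Q`, a finite sum over all graphs).

Outline of the proof. Dense range `n p ≥ n^(3/5)`: first and second moment method for systems of
small classes. In the rest, let `f` be the least number of vertices without a unique colour over
all colourings with `u` colours. If `P(f = 0)` is not small then the Efron-Stein inequality,
together with a bound for the number of vertices with few unique colours, shows that `f` is small
with high probability; then one more colour, given to a suitable set of vertices which every
remaining vertex without a unique colour sees exactly once, suffices. So `P(χ ≤ u)` not small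
implies `P(χ ≤ u + 1)` close to `1`.
-/

namespace Pool.Agent.Results.MP_eca09a_pr.TwoPoint

open Filter Topology Pool.Agent.CFC

/-- For every sequence `p` with `0 ≤ p n ≤ 1` for all large `n` there are integers `a n` such that
the conflict-free chromatic number of `G(n, p n)` is `a n` or `a n + 1` with probability tending
to `1`. -/
theorem result (p : ℕ → ℝ) (hp : ∀ᶠ n : ℕ in atTop, 0 ≤ p n ∧ p n ≤ 1) :
    ∃ a : ℕ → ℕ, Tendsto (fun n : ℕ => gnp n (p n) (fun G => chiCF G = a n ∨ chiCF G = a n + 1))
      atTop (𝓝 1) :=
  Pool.Agent.CFX.main_ev p hp

end Pool.Agent.Results.MP_eca09a_pr.TwoPoint
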